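import Pool.Agent.Lib_helper96.HopfFinal

/-!
# A countable Hopfian group all of whose group rings are not Hopfian

Complements to `Pool.Agent.HopfZG`: the endomorphism of the integral group ring kills `g - 1` for a
group element `g` different from `1`, so it stays surjective and not injective over all nontrivial
commutative rings of coefficients; the group is countable.
-/

set_option autoImplicit false

namespace Pool.Agent.HopfZG

open SemidirectProduct Multiplicative MonoidAlgebra

section RingMap

variable {Y : ℕ → Type} [∀ n, Group (Y n)]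

/-- If `ℤ[Y_{n+1}]` maps onto `ℤ[Y_n]` for all `n`, then there is a surjective endomorphism of the
group ring of the restricted product which kills `g - 1` for some `g` different from `1`. -/
theorem ring_kills (τ : ∀ n, Y (n + 1) →* MonoidAlgebra ℤ (Y n))
    (hτ : ∀ n, Function.Surjective (lift ℤ (MonoidAlgebra ℤ (Y n)) (Y (n + 1)) (τ n)))
    (h0 : Nontrivial (Y 0)) :
    ∃ (F : RP Y →* MonoidAlgebra ℤ (RP Y)) (g : RP Y), g ≠ 1 ∧ F g = 1 ∧
      ∀ h : RP Y, ∃ b, lift ℤ (MonoidAlgebra ℤ (RP Y)) (RP Y) F b = single h 1 := by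
  let f : ∀ n, Y n →* MonoidAlgebra ℤ (RP Y) := fun n => match n with
    | 0 => 1
    | n + 1 => ((mapDomainRingHom ℤ (iot (Y := Y) n)) :
        MonoidAlgebra ℤ (Y n) →* MonoidAlgebra ℤ (RP Y)).comp (τ n)
  have hf : ∀ m n, m ≠ n → ∀ x y, Commute (f m x) (f n y) := by
    intro m n hmn x y
    cases m with
    | zero => exact Commute.one_left _
    | succ m =>
      cases n with
      | zero => exact Commute.one_right _
      | succ n => exact commute_map_iot (by omega) _ _
  let φ : MonoidAlgebra ℤ (RP Y) →+* MonoidAlgebra ℤ (RP Y) :=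
    (lift ℤ (MonoidAlgebra ℤ (RP Y)) (RP Y) (glue hf)).toRingHom
  have hφ : ∀ g, φ (single g 1) = glue hf g := by
    intro g
    show lift ℤ _ _ _ (single g 1) = _
    rw [lift_single, one_smul]
  obtain ⟨y, hy⟩ := exists_ne (1 : Y 0)
  refine ⟨glue hf, iot 0 y, ?_, ?_, ?_⟩
  · intro h3
    apply hy
    have := congrArg (fun x : RP Y => x.1 0) h3
    simpa using this
  · rw [glue_iot]
    rfl
  · have h1 : ∀ n (a : MonoidAlgebra ℤ (Y n)), mapDomainRingHom ℤ (iot n) a ∈ φ.range := by
      intro n a
      obtain ⟨b, rfl⟩ := hτ n a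
      refine ⟨mapDomainRingHom ℤ (iot (n + 1)) b, ?_⟩
      induction b using MonoidAlgebra.induction_on with
      | of z =>
        simp only [of_apply, mapDomainRingHom_apply, mapDomain_single, lift_single, one_smul]
        rw [hφ, glue_iot]
        rfl
      | add x y hx hy => simp only [map_add, hx, hy]
      | smul r x hx =>
        rw [map_zsmul, map_zsmul, map_zsmul, map_zsmul, hx]
    have h2 : ∀ g : RP Y, single g (1 : ℤ) ∈ φ.range := by
      let S : Subgroup (RP Y) :=
        { carrier := {g | single g (1 : ℤ) ∈ φ.range ∧ single g⁻¹ (1 : ℤ) ∈ φ.range}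
          one_mem' := by
            constructor
            · exact φ.range.one_mem
            · rw [inv_one]; exact φ.range.one_mem
          mul_mem' := by
            rintro a b ⟨ha, ha'⟩ ⟨hb, hb'⟩
            constructor
            · have := φ.range.mul_mem ha hb
              rwa [single_mul_single, mul_one] at this
            · have := φ.range.mul_mem hb' ha'
              rw [single_mul_single, mul_one] at this
              rwa [mul_inv_rev]
          inv_mem' := by
            rintro a ⟨ha, ha'⟩
            exact ⟨ha', by rwa [inv_inv]⟩ }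
      have hS : S = ⊤ := by
        apply mem_of_iot_mem
        intro n y
        constructor
        · have := h1 n (single y 1)
          rwa [mapDomainRingHom_apply, mapDomain_single] at this
        · have := h1 n (single y⁻¹ 1)
          rwa [mapDomainRingHom_apply, mapDomain_single, map_inv] at this
      intro g
      have : g ∈ S := by rw [hS]; trivial
      exact this.1
    intro h
    exact h2 h

end RingMap

section Coeff

universe u

variable {G : Type} [Group G]

/-- Change of coefficients. -/
theorem coeff_change (F : G →* MonoidAlgebra ℤ G) (g : G) (hg : g ≠ 1) (hF : F g = 1)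
    (hs : ∀ h : G, ∃ b, lift ℤ (MonoidAlgebra ℤ G) G F b = single h 1)
    (R : Type u) [CommRing R] [Nontrivial R] :
    ∃ φ : MonoidAlgebra R G →ₐ[R] MonoidAlgebra R G,
      Function.Surjective φ ∧ ¬ Function.Injective φ := by
  let ι : MonoidAlgebra ℤ G →+* MonoidAlgebra R G :=
    (lift ℤ (MonoidAlgebra R G) G (MonoidAlgebra.of R G)).toRingHom
  have hι : ∀ h : G, ι (single h 1) = single h 1 := by
    intro h
    show lift ℤ _ _ _ (single h 1) = _
    rw [lift_single, one_smul, of_apply]
  let φ : MonoidAlgebra R G →ₐ[R] MonoidAlgebra R G :=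
    lift R (MonoidAlgebra R G) G ((ι : MonoidAlgebra ℤ G →* MonoidAlgebra R G).comp F)
  have hφ : ∀ h : G, φ (single h 1) = ι (F h) := by
    intro h
    show lift R _ _ _ (single h 1) = _
    rw [lift_single, one_smul]
    rfl
  have hcomm : ∀ b : MonoidAlgebra ℤ G, φ (ι b) = ι (lift ℤ (MonoidAlgebra ℤ G) G F b) := by
    intro b
    induction b using MonoidAlgebra.induction_on with
    | of z => rw [of_apply, hι, hφ, lift_single, one_smul]
    | add x y hx hy => rw [map_add, map_add, map_add, map_add, hx, hy]
    | smul r x hx => rw [map_zsmul, map_zsmul, map_zsmul, map_zsmul, hx]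
  refine ⟨φ, ?_, ?_⟩
  · intro a
    have h3 : a ∈ φ.range := by
      induction a using MonoidAlgebra.induction_on with
      | of z =>
        obtain ⟨b, hb⟩ := hs z
        refine ⟨ι b, ?_⟩
        show φ (ι b) = _
        rw [hcomm, hb, hι, of_apply]
      | add x y hx hy => exact φ.range.add_mem hx hy
      | smul r x hx => exact φ.range.smul_mem hx r
    exact h3
  · intro hinj
    have h1 : φ (single g 1) = φ (single 1 1) := by
      rw [hφ, hφ, hF, map_one F]
    have h2 := hinj h1
    exact hg (of_injective (R := R) h2)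

end Coeff

section Count

variable {Y : ℕ → Type} [∀ n, Group (Y n)]

theorem countable_RP [∀ n, Countable (Y n)] : Countable (RP Y) := by
  have h : Function.Injective (fun x : RP Y =>
      (⟨x.2.choose, fun i => x.1 i⟩ : Σ N : ℕ, ∀ i : Fin N, Y i)) := by
    intro x y hxy
    have hx := x.2.choose_spec
    have hy := y.2.choose_spec
    simp only [Sigma.mk.injEq] at hxy
    obtain ⟨h1, h2⟩ := hxy
    apply ext_RP
    intro n
    by_cases hn : n < x.2.choose
    · have h3 : ∀ (N M : ℕ) (e : N = M) (a : ∀ i : Fin N, Y i) (b : ∀ i : Fin M, Y i),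
          HEq a b → ∀ (i : ℕ) (hi : i < N) (hi' : i < M), a ⟨i, hi⟩ = b ⟨i, hi'⟩ := by
        intro N M e a b hab i hi hi'
        subst e
        rw [eq_of_heq hab]
      exact h3 _ _ h1 _ _ h2 n hn (h1 ▸ hn)
    · rw [hx n (not_lt.1 hn), hy n (not_lt.1 (h1 ▸ hn))]
  exact h.countable

theorem countable_sdp {N H : Type} [Group N] [Group H] (φ : H →* MulAut N) [Countable N]
    [Countable H] : Countable (N ⋊[φ] H) :=
  (SemidirectProduct.equivProd (φ := φ)).injective.countable

end Count

/-- A countable Hopfian group none of whose group rings is Hopfian. -/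
theorem main_all : ∃ (G : Type) (_ : Group G), Countable G ∧
    (∀ f : G →* G, Function.Surjective f → Function.Injective f) ∧
    ∃ (F : G →* MonoidAlgebra ℤ G) (g : G), g ≠ 1 ∧ F g = 1 ∧
      ∀ h : G, ∃ b, lift ℤ (MonoidAlgebra ℤ G) G F b = single h 1 := by
  have h0 : ∀ (j : ℕ) (b : Bool), ∃ (φ : RingAut (FF j b)) (ψ : AddChar (FF j b) ℂ),
      φ ^ 8 = 1 ∧ (∀ k : ℕ, φ ^ k = 1 → 8 ∣ k) ∧
      (∀ x, ψ (φ x) = ψ x) ∧
      ∀ x : FF j b, ∑ y, ψ (x * y) = if x = 0 then (Fintype.card (FF j b) : ℂ) else 0 := by
    intro j b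
    exact field_data (pr b) (FF j b) (2 ^ j) (by positivity)
      (GaloisField.finrank _ (by positivity))
  choose φ ψ h8 hord hinv horth using h0
  have hG : Good (V := fun j b => Multiplicative (FF j b)) (Γ := fun j => Gam (φ j) (h8 j))
      (fun j b => afc (φ j) (h8 j) b) (fun j b => theta (φ j) b) := by
    refine good_fam card_FF (fun j k => hord j false k) (fun j h => ?_)
    have := hord j true 4 h
    omega
  have hU : HasUnits (V := fun j b => Multiplicative (FF j b)) (Γ := fun j => Gam (φ j) (h8 j))
      (fun j b => afc (φ j) (h8 j) b) (fun j b => theta (φ j) b) := by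
    intro n
    obtain ⟨α, β, h1, h2, h3, h4⟩ := arith_exists (8 * 2 ^ n) (Nat.one_le_iff_ne_zero.2 (by positivity))
    have hc : ∀ b, (Fintype.card (FF n b) : ℤ) = (pr b : ℤ) ^ (8 * 2 ^ n) := by
      intro b
      rw [← Nat.card_eq_fintype_card, card_FF]
      push_cast
      rfl
    exact exists_unit_ZA (F := FF n) (ψ := ψ n) (φ := φ n) (h8 := h8 n) (hinv n) (horth n)
      h1 (by rw [hc]; exact h2) (by rw [hc]; exact h3) (by rw [hc, hc]; exact h4)
  have hfin : ∀ j, Finite (Gam (φ j) (h8 j)) := fun j =>
    Finite.of_equiv _ (SemidirectProduct.equivProd (φ := actQ (φ j) (h8 j))).symm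
  have hcount : ∀ n, Countable (YY (fun j b => afc (φ j) (h8 j) b) (fun j b => theta (φ j) b) n) := by
    intro n
    have h1 : Countable (KK (fun j => Gam (φ j) (h8 j)) n) := inferInstance
    have h2 : Countable (FreeGroup (KK (fun j => Gam (φ j) (h8 j)) n)) :=
      (Quot.mk_surjective (r := FreeGroup.Red.Step)).countable
    have h3 : Countable (FH (KK (fun j => Gam (φ j) (h8 j)) n)) := countable_sdp _
    exact countable_sdp _
  refine ⟨RP (fun n => YY (fun j b => afc (φ j) (h8 j) b) (fun j b => theta (φ j) b) n),
    inferInstance, countable_RP, group_side hG, ?_⟩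
  have h1 := fun n => exists_unit hU n
  choose U hu hc using h1
  refine ring_kills (Y := fun n => YY (fun j b => afc (φ j) (h8 j) b) (fun j b => theta (φ j) b) n)
    (fun n => (Units.coeHom _).comp (tau n (U n) (hc n)))
    (fun n => tau_surjective n (U n) (hu n) (hc n)) ?_
  have := nontrivial_KK hG 0
  obtain ⟨k, hk⟩ := exists_ne (1 : KK (fun j => Gam (φ j) (h8 j)) 0)
  refine ⟨⟨inr (inr k), 1, ?_⟩⟩
  intro h
  exact hk (inr_injective (inr_injective (h.trans (by rw [map_one, map_one]))))

end Pool.Agent.HopfZG
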