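import Mathlib
import Pool.Agent.Lib_helper48.WiefCyc

/-!
# Primes exactly dividing sums and differences of `Y`-smooth numbers

The lemmas of `Lib_helper48/Wief*` for a general smoothness bound `Y`.
-/

set_option autoImplicit false

namespace Pool.Agent.WiefY

open Filter Polynomial Pool.Agent.Wief

/-- the odd primes `p` such that some `kp = m ± n`, `p ∤ k`, with `Y`-smooth positive
integers `m`, `n` -/
def PY (Y : ℕ) : Set ℕ :=
  {p : ℕ | p.Prime ∧ p ≠ 2 ∧ ∃ k : ℤ, ¬ ((p : ℤ) ∣ k) ∧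
    ∃ m ∈ Nat.smoothNumbers (Y + 1), ∃ n ∈ Nat.smoothNumbers (Y + 1),
      (k * (p : ℤ) = (m : ℤ) + (n : ℤ) ∨ k * (p : ℤ) = (m : ℤ) - (n : ℤ))}

variable {a Y : ℕ}

/-- `Y`-smooth bases: if `v_ℓ(a^{ℓ-1}-1)` is odd then `ℓ ∈ 𝒫_Y` or `ℓ ∈ ℳ_a` -/
lemma mem_of_odd {l : ℕ} (hl : l.Prime) (hl2 : l ≠ 2) (ha : 2 ≤ a) (has : a ∈ Nat.smoothNumbers (Y + 1))
    (hodd : Odd (padicValNat l (a ^ (l - 1) - 1))) : l ∈ PY Y ∪ M a := by
  have : Fact l.Prime := ⟨hl⟩
  have hl1 : l - 1 ≠ 0 := by have := hl.two_le; omega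
  have h1 : 1 < a ^ (l - 1) := Nat.one_lt_pow hl1 (by omega)
  have hne : a ^ (l - 1) - 1 ≠ 0 := by omega
  set v := padicValNat l (a ^ (l - 1) - 1) with hv
  rcases Nat.lt_or_ge v 3 with h3 | h3
  · left
    have hv1 : v = 1 := by
      obtain ⟨j, hj⟩ := hodd
      omega
    obtain ⟨k, hk⟩ : l ∣ a ^ (l - 1) - 1 := dvd_of_one_le_padicValNat (by omega)
    have hkl : ¬ l ∣ k := by
      rintro ⟨j, hj⟩
      have h4 : l ^ 2 ∣ a ^ (l - 1) - 1 := ⟨j, by rw [hk, hj]; ring⟩
      have h5 := (padicValNat_dvd_iff_le hne).1 h4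
      omega
    refine ⟨hl, hl2, k, fun h => hkl (by exact_mod_cast h), a ^ (l - 1), ?_, 1, ?_, Or.inr ?_⟩
    · exact pow_mem_smooth has (l - 1)
    · have := pow_mem_smooth has 0
      rwa [pow_zero] at this
    · have h6 : (a ^ (l - 1) : ℕ) = l * k + 1 := by omega
      have h7 : ((a ^ (l - 1) : ℕ) : ℤ) = l * k + 1 := by exact_mod_cast h6
      rw [h7]
      push_cast
      ring
  · right
    refine ⟨hl, ?_⟩
    have h4 : l ^ 3 ∣ a ^ (l - 1) - 1 := (padicValNat_dvd_iff_le hne).2 h3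
    exact ((Nat.modEq_iff_dvd' h1.le).2 h4).symm

/-- injections into `(PY Y ∪ M a) ∩ [0, x]` -/
lemma card_le_of_key (a x : ℕ) (Q : Finset ℕ) (key : ℕ → ℕ)
    (h : ∀ n ∈ Q, ∃ l, l ∈ PY Y ∪ M a ∧ l ≤ x ∧ key l = n) :
    Q.card ≤ (PY Y ∩ Set.Iic x).ncard + (M a ∩ Set.Iic x).ncard := by
  classical
  have hfin : ((PY Y ∪ M a) ∩ Set.Iic x).Finite := (Set.finite_Iic x).subset Set.inter_subset_right
  choose! f hf using h
  have h1 : (Q : Set ℕ).ncard ≤ ((PY Y ∪ M a) ∩ Set.Iic x).ncard := by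
    apply Set.ncard_le_ncard_of_injOn f _ _ hfin
    · intro n hn
      have := hf n hn
      exact ⟨this.1, this.2.1⟩
    · intro n hn m hm hnm
      have h1 := (hf n hn).2.2
      have h2 := (hf m hm).2.2
      rw [← h1, ← h2, hnm]
  rw [Set.ncard_coe_finset] at h1
  refine h1.trans ?_
  rw [Set.union_inter_distrib_right]
  exact Set.ncard_union_le _ _

/-- the basic inequality: every prime `q ∈ (a², N]` contributes -/
lemma primes_le (ha : 2 ≤ a) (has : a ∈ Nat.smoothNumbers (Y + 1)) (N x : ℕ) (hN : a ^ (2 * N) ≤ x) :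
    Nat.primeCounting N ≤ a ^ 2 + ((PY Y ∩ Set.Iic x).ncard + (M a ∩ Set.Iic x).ncard) := by
  classical
  have h1 := card_le_of_key a x ((Finset.Ioc (a ^ 2) N).filter Nat.Prime)
    (fun l => orderOf ((a : ZMod l) ^ 2)) (by
      intro q hq
      rw [Finset.mem_filter, Finset.mem_Ioc] at hq
      obtain ⟨l, hl, hl2, hord, hlt, hodd⟩ := exists_prime ha hq.2 hq.1.1
      refine ⟨l, mem_of_odd hl hl2 ha has hodd, ?_, hord⟩
      have h2 : a ^ (2 * q) ≤ a ^ (2 * N) := Nat.pow_le_pow_right (by omega) (by omega)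
      omega)
  have h2 : Nat.primeCounting N ≤ a ^ 2 + ((Finset.Ioc (a ^ 2) N).filter Nat.Prime).card := by
    rw [Nat.primeCounting, Nat.primeCounting', Nat.count_eq_card_filter_range]
    have h3 : (Finset.range (N + 1)).filter Nat.Prime ⊆
        (Finset.Ioc 0 (a ^ 2)) ∪ (Finset.Ioc (a ^ 2) N).filter Nat.Prime := by
      intro q hq
      rw [Finset.mem_filter, Finset.mem_range] at hq
      have := hq.2.pos
      simp only [Finset.mem_union, Finset.mem_Ioc, Finset.mem_filter]
      by_cases h : q ≤ a ^ 2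
      · left; omega
      · right; exact ⟨by omega, hq.2⟩
    refine (Finset.card_le_card h3).trans ((Finset.card_union_le _ _).trans ?_)
    rw [Nat.card_Ioc]
    omega
  omega

/-- the asymptotic form -/
theorem primes_bound (ha : 2 ≤ a) (has : a ∈ Nat.smoothNumbers (Y + 1)) :
    ∃ c : ℝ, 0 < c ∧ ∀ᶠ x : ℕ in atTop, c * (Real.log x / Real.log (Real.log x)) ≤
      (PY Y ∩ Set.Iic x).ncard + (M a ∩ Set.Iic x).ncard := by
  have hA : (2 : ℝ) ≤ a := by exact_mod_cast ha
  have hlog2 : (0.69 : ℝ) < Real.log 2 := by have := Real.log_two_gt_d9; linarith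
  have hla : (0.69 : ℝ) < Real.log a := lt_of_lt_of_le hlog2 (Real.log_le_log (by norm_num) hA)
  refine ⟨1 / (16 * Real.log a), by positivity, ?_⟩
  -- eventual inequalities in terms of `L = log x`
  have hL : Tendsto (fun x : ℕ => Real.log (x : ℝ)) atTop atTop :=
    Real.tendsto_log_atTop.comp tendsto_natCast_atTop_atTop
  have hLL : Tendsto (fun x : ℕ => Real.log (Real.log (x : ℝ))) atTop atTop :=
    Real.tendsto_log_atTop.comp hL
  -- `log L / L → 0`
  have hlo : ∀ ε : ℝ, 0 < ε → ∀ᶠ x : ℕ in atTop,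
      Real.log (Real.log (x : ℝ)) ≤ ε * Real.log (x : ℝ) := by
    intro ε hε
    have h1 : ∀ᶠ y : ℝ in atTop, ‖Real.log y‖ ≤ ε * ‖y‖ :=
      (Real.isLittleO_log_id_atTop.def hε)
    filter_upwards [hL.eventually h1, hL.eventually_ge_atTop 1] with x hx hx1
    rw [Real.norm_eq_abs, Real.norm_eq_abs, abs_of_nonneg (by linarith : (0 : ℝ) ≤ Real.log (x : ℝ))] at hx
    exact (le_abs_self _).trans hx
  filter_upwards [hL.eventually_ge_atTop (100 * Real.log a), hL.eventually_ge_atTop 100,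
    hLL.eventually_ge_atTop 1, hlo (1 / (200 * Real.log a)) (by positivity),
    hlo (1 / (200 * Real.log a * (a ^ 2))) (by positivity), eventually_gt_atTop 1]
    with x h1 h2 h3 h4 h5 h6
  set L := Real.log (x : ℝ) with hLdef
  set N := ⌊L / (2 * Real.log a)⌋₊ with hN
  have hLpos : 0 < L := by linarith
  have hN1 : (N : ℝ) ≤ L / (2 * Real.log a) := Nat.floor_le (by positivity)
  have hN2 : L / (2 * Real.log a) < N + 1 := Nat.lt_floor_add_one _
  have hxpos : (0 : ℝ) < x := by exact_mod_cast (by omega : 0 < x)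
  have hpow : a ^ (2 * N) ≤ x := by
    have h7 : ((a ^ (2 * N) : ℕ) : ℝ) ≤ (x : ℝ) := by
      rw [Nat.cast_pow, ← Real.log_le_log_iff (by positivity) hxpos, Real.log_pow]
      rw [le_div_iff₀ (by positivity)] at hN1
      push_cast
      nlinarith
    exact_mod_cast h7
  have hcount := primes_le ha has N x hpow
  have hpi := Chebyshev.pi_ge N
  -- size of `N`
  have hN3 : L / (4 * Real.log a) + 1 ≤ N := by
    have h8 : L / (2 * Real.log a) = 2 * (L / (4 * Real.log a)) := by field_simp; norm_num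
    have h9 : 25 ≤ L / (4 * Real.log a) := by rw [le_div_iff₀ (by positivity)]; linarith
    linarith
  have hNpos : (26 : ℝ) ≤ N := by
    have h9 : 25 ≤ L / (4 * Real.log a) := by rw [le_div_iff₀ (by positivity)]; linarith
    linarith
  have hNL : (N : ℝ) + 1 ≤ L := by
    have h8 : L / (2 * Real.log a) ≤ L / 1.38 := by
      apply div_le_div_of_nonneg_left hLpos.le (by norm_num); linarith
    have h9 : L / 1.38 + 1 ≤ L := by
      rw [div_add_one (by norm_num), div_le_iff₀ (by norm_num)]; linarith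
    linarith
  have hlogN : Real.log N ≤ Real.log L := Real.log_le_log (by linarith) (by linarith)
  have hlogN1 : Real.log (N + 1) ≤ Real.log L := Real.log_le_log (by linarith) hNL
  have hlogNpos : 0 < Real.log N := Real.log_pos (by linarith)
  have hnum : L / (8 * Real.log a) ≤ N * Real.log 2 - Real.log (N + 1) := by
    have h8 : Real.log L ≤ 1 / (200 * Real.log a) * L := h4
    have h9 : (L / (4 * Real.log a)) * 0.69 ≤ N * Real.log 2 := by
      apply mul_le_mul (by linarith) hlog2.le (by norm_num) (by linarith)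
    have h10 : L / (8 * Real.log a) + 1 / (200 * Real.log a) * L ≤ (L / (4 * Real.log a)) * 0.69 := by
      have : L / (8 * Real.log a) + 1 / (200 * Real.log a) * L = (L / Real.log a) * (13 / 100) := by
        field_simp; norm_num
      have h11 : (L / (4 * Real.log a)) * 0.69 = (L / Real.log a) * (0.69 / 4) := by
        field_simp
      rw [this, h11]
      apply mul_le_mul_of_nonneg_left (by norm_num) (by positivity)
    linarith
  have hpi2 : L / (8 * Real.log a) / Real.log L ≤ (Nat.primeCounting N : ℝ) := by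
    refine le_trans ?_ hpi
    have hnum0 : (0 : ℝ) ≤ L / (8 * Real.log a) := by positivity
    apply div_le_div₀ (by linarith) hnum hlogNpos hlogN
  have hloss : (a : ℝ) ^ 2 ≤ L / (16 * Real.log a) / Real.log L := by
    rw [le_div_iff₀ (by linarith), le_div_iff₀ (by positivity)]
    have h8 : Real.log L ≤ 1 / (200 * Real.log a * (a ^ 2)) * L := h5
    have h9 : (a : ℝ) ^ 2 * Real.log L * (16 * Real.log a) ≤
        (a : ℝ) ^ 2 * (1 / (200 * Real.log a * (a ^ 2)) * L) * (16 * Real.log a) := by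
      gcongr
    have h10 : (a : ℝ) ^ 2 * (1 / (200 * Real.log a * (a ^ 2)) * L) * (16 * Real.log a) =
        L * (16 / 200) := by
      have : (a : ℝ) ≠ 0 := by positivity
      field_simp
    linarith
  have hcountR : (Nat.primeCounting N : ℝ) ≤
      (a : ℝ) ^ 2 + ((PY Y ∩ Set.Iic x).ncard + (M a ∩ Set.Iic x).ncard) := by
    exact_mod_cast hcount
  have hfin : 1 / (16 * Real.log a) * (L / Real.log L) + L / (16 * Real.log a) / Real.log L =
      L / (8 * Real.log a) / Real.log L := by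
    have : Real.log L ≠ 0 := by linarith
    field_simp
    norm_num
  linarith

/-- for even `a` not divisible by `8` the bound is of order `log x` -/
theorem even_bound (ha : 2 ≤ a) (has : a ∈ Nat.smoothNumbers (Y + 1)) (ha2 : 2 ∣ a) (ha8 : ¬ 8 ∣ a) :
    ∃ c : ℝ, 0 < c ∧ ∀ᶠ x : ℕ in atTop, c * Real.log x ≤
      (PY Y ∩ Set.Iic x).ncard + (M a ∩ Set.Iic x).ncard := by
  classical
  have hA : (2 : ℝ) ≤ a := by exact_mod_cast ha
  have hlog2 : (0.69 : ℝ) < Real.log 2 := by have := Real.log_two_gt_d9; linarith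
  have hla : (0.69 : ℝ) < Real.log a := lt_of_lt_of_le hlog2 (Real.log_le_log (by norm_num) hA)
  refine ⟨1 / (24 * Real.log a), by positivity, ?_⟩
  have hL : Tendsto (fun x : ℕ => Real.log (x : ℝ)) atTop atTop :=
    Real.tendsto_log_atTop.comp tendsto_natCast_atTop_atTop
  filter_upwards [hL.eventually_ge_atTop (24 * Real.log a * (a ^ 2 + 5)), eventually_gt_atTop 1]
    with x h1 h6
  set L := Real.log (x : ℝ) with hLdef
  set N := ⌊L / Real.log a⌋₊ with hN
  have hLpos : 0 < L := lt_of_lt_of_le (by positivity) h1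
  have hN1 : (N : ℝ) ≤ L / Real.log a := Nat.floor_le (by positivity)
  have hN2 : L / Real.log a < N + 1 := Nat.lt_floor_add_one _
  have hxpos : (0 : ℝ) < x := by exact_mod_cast (by omega : 0 < x)
  have hpow : a ^ N ≤ x := by
    have h7 : ((a ^ N : ℕ) : ℝ) ≤ (x : ℝ) := by
      rw [Nat.cast_pow, ← Real.log_le_log_iff (by positivity) hxpos, Real.log_pow]
      rw [le_div_iff₀ (by positivity)] at hN1
      exact hN1
    exact_mod_cast h7
  have hcount := card_le_of_key a x (good a N) (fun l => orderOf (a : ZMod l)) (by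
    intro n hn
    rw [good, Finset.mem_filter, Finset.mem_Icc] at hn
    obtain ⟨l, hl, hl2, hord, hlt, hodd⟩ := exists_prime_cyc ha ha2 ha8 hn.1.1 hn.2.1 hn.2.2
    refine ⟨l, mem_of_odd hl hl2 ha has hodd, ?_, hord⟩
    have h2 : a ^ n ≤ a ^ N := Nat.pow_le_pow_right (by omega) hn.1.2
    omega)
  have hcountR : ((good a N).card : ℝ) ≤
      (PY Y ∩ Set.Iic x).ncard + (M a ∩ Set.Iic x).ncard := by exact_mod_cast hcount
  have h3 := card_good ha N
  have h4 : (a : ℝ) ^ 2 + 5 ≤ L / (24 * Real.log a) := by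
    rw [le_div_iff₀ (by positivity)]
    linarith
  have h5 : L / Real.log a / 12 = 2 * (L / (24 * Real.log a)) := by field_simp; norm_num
  have h7 : 1 / (24 * Real.log a) * L = L / (24 * Real.log a) := by ring
  rw [h7]
  linarith

end Pool.Agent.WiefY
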